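import Mathlib
import Pool.Agent.Results.MP_fb3fae_co.AllTriangles
import Pool.Agent.H891R3.NR.Stmts
import Pool.Agent.H891R3.NR.TaskIso
import Pool.Agent.H662R3.NR.Acute
import Pool.Agent.H944R3.NR.ExistsF
import Pool.Agent.H891R3.NR.Core2

set_option autoImplicit false

namespace Pool.Agent.Results.MP_fb3fae_co.NoReflections

open Pool.Agent.H891R3.NR
open Pool.Agent.Results.MP_fb3fae_co.AllTriangles (E3 IsConvexPolyhedron IsTwoFace)

/-- **Q2 (no reflections).** For a nondegenerate triangle with side lengths `a, b, c` there is a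
convex polyhedron all of whose two-dimensional faces are copies of the triangle by proper motions
of the plane, seen from outside (no mirror images), if and only if the triangle is isosceles or
acute. -/
theorem result : ∀ a b c : ℝ, 0 < a → 0 < b → 0 < c → a < b + c → b < c + a → c < a + b →
    ((∃ P : Set E3, AllCopies P a b c) ↔ (a = b ∨ b = c ∨ c = a) ∨
      (a ^ 2 < b ^ 2 + c ^ 2 ∧ b ^ 2 < c ^ 2 + a ^ 2 ∧ c ^ 2 < a ^ 2 + b ^ 2)) :=
  fun a b c ha hb hc h1 h2 h3 =>
    Pool.Agent.H944R3.NR.finalF Pool.Agent.H891R3.NR.Iso.taskIso Pool.Agent.H662R3.NR.taskAcute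
      Pool.Agent.H944R3.NR.taskTranslateF Pool.Agent.H944R3.NR.taskExistsF
      Pool.Agent.H891R3.NR.taskCoreF Pool.Agent.H891R3.NR.taskDisphenoid a b c ha hb hc h1 h2 h3

end Pool.Agent.Results.MP_fb3fae_co.NoReflections
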